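import Pool.Agent.Helper70_RES.Stmts

/-!
# Resonance theorem for the Anderson model: module LIP
-/

set_option autoImplicit false

open scoped InnerProductSpace ComplexConjugate Topology ENNReal NNReal
open MeasureTheory Filter

noncomputable section

namespace Pool.Agent.RES.H82

open Pool.Agent.Anderson Pool.Agent.Helper54.Bal Pool.Agent.QE

/-- a set of reals whose points move slower than their images in `O` -/
theorem vol_le (S O : Set ℝ) (e : ℝ → ℝ) (K : ℝ≥0) (he : ∀ v ∈ S, e v ∈ O)
    (hl : ∀ v ∈ S, ∀ v' ∈ S, |v - v'| ≤ K * |e v - e v'|) :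
    volume S ≤ (K : ℝ≥0∞) * volume O := by
  have hinj : Set.InjOn e S := by
    intro v hv v' hv' h
    have h1 := hl v hv v' hv'
    rw [h, sub_self, abs_zero, mul_zero] at h1
    have h2 : v - v' = 0 := abs_eq_zero.1 (le_antisymm h1 (abs_nonneg _))
    linarith
  have hleft : Set.LeftInvOn (Function.invFunOn e S) e S := hinj.leftInvOn_invFunOn
  have hL : LipschitzOnWith K (Function.invFunOn e S) (e '' S) := by
    apply LipschitzOnWith.of_dist_le_mul
    rintro _ ⟨v, hv, rfl⟩ _ ⟨v', hv', rfl⟩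
    rw [hleft hv, hleft hv', Real.dist_eq, Real.dist_eq]
    exact hl v hv v' hv'
  have himg : Function.invFunOn e S '' (e '' S) = S := hleft.image_image
  have h := hL.hausdorffMeasure_image_le (d := 1) zero_le_one
  rw [himg, hausdorffMeasure_real, ENNReal.rpow_one] at h
  refine h.trans ?_
  gcongr
  rintro _ ⟨v, hv, rfl⟩
  exact he v hv

theorem lip (sym : SymStmt) : LipStmt := by
  intro d V a m hm O
  set S : Set ℝ := {v : ℝ | ∃ E ∈ O, ∃ ψ : L2 d, Eig (Function.update V a v) E ψ ∧ ψ a = 1 ∧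
    ‖ψ‖ ≤ m} with hS
  choose! e he using (fun v (hv : v ∈ S) => hv)
  have h := vol_le S O e (m ^ 2).toNNReal (fun v hv => (he v hv).1) (by
    intro v hv v' hv'
    obtain ⟨ψ, h1, h2, h3⟩ := (he v hv).2
    obtain ⟨ψ', h1', h2', h3'⟩ := (he v' hv').2
    have hs := sym d (Function.update V a v) a v' (e v) (e v') ψ ψ' a a 0 0
      (fun x => by rw [h1 x]; simp) (fun x => by
        rw [Function.update_idem, h1' x]; simp)
    obtain ⟨_, hs2, hs3⟩ := hs
    rw [h2, h2', Function.update_self] at hs3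
    have h4 : (v : ℂ) - v' = ((e v : ℂ) - e v') * ∑' x, ψ x * ψ' x := by
      linear_combination -hs3
    have h5 : |v - v'| = |e v - e v'| * ‖∑' x, ψ x * ψ' x‖ := by
      have h6 := congrArg (fun z : ℂ => ‖z‖) h4
      simp only [norm_mul] at h6
      rw [← Complex.ofReal_sub, ← Complex.ofReal_sub, Complex.norm_real, Complex.norm_real,
        Real.norm_eq_abs, Real.norm_eq_abs] at h6
      exact h6
    rw [h5, Real.coe_toNNReal _ (by positivity), mul_comm]
    apply mul_le_mul_of_nonneg_right _ (abs_nonneg _)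
    calc ‖∑' x, ψ x * ψ' x‖ ≤ ‖ψ‖ * ‖ψ'‖ := hs2
      _ ≤ m * m := mul_le_mul h3 h3' (norm_nonneg _) hm
      _ = m ^ 2 := by ring)
  exact h

end Pool.Agent.RES.H82
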